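import Mathlib

set_option autoImplicit false

namespace Pool.Agent.H.MP_e5f8e2_co

theorem cast_le' {a b : ℕ} (h : Nat.ble a b = true) : (a : ℝ) ≤ b := by
  exact_mod_cast Nat.le_of_ble_eq_true h

def chkA (p q r a b s t c : ℕ) : Bool :=
  Nat.ble (210 * (Nat.pow p a * Nat.pow r b * Nat.pow q t))
    (Nat.pow 4 c * (Nat.pow q s * Nat.pow p t))

def chkB (p q r r' a b s t c : ℕ) : Bool :=
  Nat.ble (210 * (Nat.pow r a * Nat.pow r' b * Nat.pow q t))
    (Nat.pow 4 c * (Nat.pow q s * Nat.pow p t))

theorem n1 : chkA 2300 2301 4601 166015 800000 966015 553434 400000 = true := by decide +kernel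

theorem n2 : chkA 2301 2300 4601 166015 800000 966015 578597 400000 = true := by decide +kernel

theorem n3 : chkB 2300 2301 4601 15874600 166015 400000 966015 603760 400000 = true := by
  decide +kernel

theorem n4 : chkB 2301 2300 4601 15879201 166015 400000 966015 628923 400000 = true := by
  decide +kernel

theorem n5 : Nat.ble (Nat.pow 4 400000) (Nat.pow 2 166015 * Nat.pow 3 400000) = true := by
  decide +kernel

theorem n6 : Nat.ble (100 * Nat.pow 8000001 166015) (103 * Nat.pow 8000000 166015) = true := by
  decide +kernel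

theorem n7 : Nat.ble (100 * (Nat.pow 2 166015 * Nat.pow 20400001 400000))
    (103 * (Nat.pow 4 400000 * Nat.pow 6800000 400000)) = true := by decide +kernel

theorem n8 : Nat.ble (100 * (Nat.pow 9 166015 * Nat.pow 22 400000 * Nat.pow 8 18000 *
    Nat.pow 7 18000)) (Nat.pow 4 400000 * (Nat.pow 8 166015 * Nat.pow 7 400000)) = true := by
  decide +kernel

theorem n9 : Nat.ble (8000000 * Nat.pow 782000 700) (Nat.pow 800000 700) = true := by
  decide +kernel

theorem n10 : Nat.ble (100000 * Nat.pow 799999 8000) (99005 * Nat.pow 800000 8000) = true := by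
  decide +kernel

theorem n11 : Nat.ble (6800000 * Nat.pow 99005 1575) (Nat.pow 100000 1575) = true := by
  decide +kernel

end Pool.Agent.H.MP_e5f8e2_co
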