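import Mathlib
import Pool.Agent.H.MP_e5f8e2_co.Num

set_option autoImplicit false

namespace Pool.Agent.H.MP_e5f8e2_co

theorem tailA (p q r a b s t c : ℕ) (hp : 0 < p) (hq : 0 < q) (hr : r = p + q) (hs : s = a + b)
    (h : chkA p q r a b s t c = true) :
    21 * (((p : ℝ) / q) ^ a * (1 + (p : ℝ) / q) ^ b / ((p : ℝ) / q) ^ t) ≤ 4 ^ c / 10 := by
  first | unfold chkA at h | unfold chkB at h
  have h1 := cast_le' h
  subst hr hs
  simp only [Nat.pow_eq, Nat.cast_mul, Nat.cast_pow, Nat.cast_ofNat, Nat.cast_add] at h1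
  have hp' : (0 : ℝ) < p := by exact_mod_cast hp
  have hq' : (0 : ℝ) < q := by exact_mod_cast hq
  have e : (1 + (p : ℝ) / q) = (p + q) / q := by field_simp; ring
  rw [e, div_pow, div_pow, div_pow, le_div_iff₀ (by norm_num)]
  have e2 : 21 * ((p : ℝ) ^ a / q ^ a * ((p + q) ^ b / q ^ b) / (p ^ t / q ^ t)) * 10 =
      210 * (p ^ a * (p + q) ^ b * q ^ t) / (q ^ (a + b) * p ^ t) := by
    rw [pow_add]; field_simp; ring
  rw [e2, div_le_iff₀ (by positivity)]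
  exact h1

theorem tailB (p q r r' a b s t c : ℕ) (hp : 0 < p) (hq : 0 < q) (hr : r = p + q)
    (hr' : r' = p * (p + 2 * q)) (hs : s = a + 2 * b)
    (h : chkB p q r r' a b s t c = true) :
    21 * ((1 + (p : ℝ) / q) ^ a * (((p : ℝ) / q) ^ 2 + 2 * ((p : ℝ) / q)) ^ b /
      ((p : ℝ) / q) ^ t) ≤ 4 ^ c / 10 := by
  first | unfold chkA at h | unfold chkB at h
  have h1 := cast_le' h
  subst hr hs hr'
  simp only [Nat.pow_eq, Nat.cast_mul, Nat.cast_pow, Nat.cast_ofNat, Nat.cast_add] at h1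
  have hp' : (0 : ℝ) < p := by exact_mod_cast hp
  have hq' : (0 : ℝ) < q := by exact_mod_cast hq
  have e : (1 + (p : ℝ) / q) = (p + q) / q := by field_simp; ring
  have e' : ((p : ℝ) / q) ^ 2 + 2 * ((p : ℝ) / q) = (p * (p + 2 * q)) / q ^ 2 := by
    field_simp
  rw [e, e', div_pow, div_pow, div_pow, le_div_iff₀ (by norm_num), ← pow_mul]
  have e2 : 21 * (((p : ℝ) + q) ^ a / q ^ a * ((p * (p + 2 * q)) ^ b / q ^ (2 * b)) /
      (p ^ t / q ^ t)) * 10 =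
      210 * ((p + q) ^ a * (p * (p + 2 * q)) ^ b * q ^ t) / (q ^ (a + 2 * b) * p ^ t) := by
    rw [pow_add]; field_simp; ring
  rw [e2, div_le_iff₀ (by positivity)]
  exact h1

theorem noise (x : ℝ) (n : ℕ) (hx : 0 < x) (h : (n : ℝ) * ((1 - x) ^ 2 / (4 * x)) ≤ 3) :
    (1 + x) ^ (2 * n) ≤ 2 ^ (2 * n) * x ^ n * 21 := by
  have e : (1 + x) ^ 2 = 2 ^ 2 * x * (1 + (1 - x) ^ 2 / (4 * x)) := by field_simp; ring
  rw [pow_mul, e, mul_pow, mul_pow, ← pow_mul]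
  apply mul_le_mul_of_nonneg_left _ (by positivity)
  set u := (1 - x) ^ 2 / (4 * x) with hu
  have hu0 : 0 ≤ u := by positivity
  calc (1 + u) ^ n ≤ (Real.exp u) ^ n :=
        pow_le_pow_left₀ (by positivity) (by have := Real.add_one_le_exp u; linarith) n
    _ = Real.exp (n * u) := (Real.exp_nat_mul u n).symm
    _ ≤ Real.exp ((3 : ℕ) * 1) := Real.exp_le_exp.mpr (by push_cast; linarith)
    _ = (Real.exp 1) ^ 3 := Real.exp_nat_mul 1 3
    _ ≤ 2.7182818286 ^ 3 :=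
        pow_le_pow_left₀ (Real.exp_pos 1).le Real.exp_one_lt_d9.le 3
    _ ≤ 21 := by norm_num

theorem r5 (m a : ℕ) (h : Nat.ble (Nat.pow 4 a) (Nat.pow 2 m * Nat.pow 3 a) = true) :
    (4 : ℝ) ^ a ≤ 2 ^ m * 3 ^ a := by
  have h1 := cast_le' h
  simpa only [Nat.pow_eq, Nat.cast_mul, Nat.cast_pow, Nat.cast_ofNat] using h1

theorem r6 (m : ℕ) (h : Nat.ble (100 * Nat.pow 8000001 m) (103 * Nat.pow 8000000 m) = true) :
    (1 + 1 / 8000000 : ℝ) ^ m ≤ 1.03 := by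
  have h1 := cast_le' h
  simp only [Nat.pow_eq, Nat.cast_mul, Nat.cast_pow, Nat.cast_ofNat] at h1
  rw [show (1 + 1 / 8000000 : ℝ) = 8000001 / 8000000 by norm_num, div_pow,
    div_le_iff₀ (by positivity)]
  linarith

theorem r7 (m a : ℕ) (h : Nat.ble (100 * (Nat.pow 2 m * Nat.pow 20400001 a))
    (103 * (Nat.pow 4 a * Nat.pow 6800000 a)) = true) :
    (2 : ℝ) ^ m * (3 + 1 / 6800000) ^ a ≤ 1.03 * 4 ^ a := by
  have h1 := cast_le' h
  simp only [Nat.pow_eq, Nat.cast_mul, Nat.cast_pow, Nat.cast_ofNat] at h1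
  rw [show (3 + 1 / 6800000 : ℝ) = 20400001 / 6800000 by norm_num, div_pow, ← mul_div_assoc,
    div_le_iff₀ (by positivity)]
  linarith

theorem r8 (m a c : ℕ) (h : Nat.ble (100 * (Nat.pow 9 m * Nat.pow 22 a * Nat.pow 8 c *
    Nat.pow 7 c)) (Nat.pow 4 a * (Nat.pow 8 m * Nat.pow 7 a)) = true) :
    (1 + 1 / 8 : ℝ) ^ m * (3 + 1 / 7) ^ a * (8 ^ c * 7 ^ c) ≤ 0.01 * 4 ^ a := by
  have h1 := cast_le' h
  simp only [Nat.pow_eq, Nat.cast_mul, Nat.cast_pow, Nat.cast_ofNat] at h1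
  rw [show (1 + 1 / 8 : ℝ) = 9 / 8 by norm_num, show (3 + 1 / 7 : ℝ) = 22 / 7 by norm_num,
    div_pow, div_pow, div_mul_div_comm, div_mul_eq_mul_div, div_le_iff₀ (by positivity)]
  linarith

theorem r9 (d : ℕ) (h : Nat.ble (8000000 * Nat.pow 782000 d) (Nat.pow 800000 d) = true) :
    (1 - 18000 / 800000 : ℝ) ^ d ≤ 1 / 8000000 := by
  have h1 := cast_le' h
  simp only [Nat.pow_eq, Nat.cast_mul, Nat.cast_pow, Nat.cast_ofNat] at h1
  rw [show (1 - 18000 / 800000 : ℝ) = 782000 / 800000 by norm_num, div_pow,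
    div_le_iff₀ (by positivity)]
  linarith

theorem r10 (d e : ℕ)
    (h : Nat.ble (100000 * Nat.pow 799999 d) (99005 * Nat.pow 800000 d) = true)
    (h' : Nat.ble (6800000 * Nat.pow 99005 e) (Nat.pow 100000 e) = true) :
    (1 - 1 / 800000 : ℝ) ^ (d * e) ≤ 1 / 6800000 := by
  have h1 := cast_le' h
  have h2 := cast_le' h'
  simp only [Nat.pow_eq, Nat.cast_mul, Nat.cast_pow, Nat.cast_ofNat] at h1 h2
  have h3 : (1 - 1 / 800000 : ℝ) ^ d ≤ 99005 / 100000 := by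
    rw [show (1 - 1 / 800000 : ℝ) = 799999 / 800000 by norm_num, div_pow,
      div_le_iff₀ (by positivity)]
    linarith
  rw [pow_mul]
  refine (pow_le_pow_left₀ (by positivity) h3 e).trans ?_
  rw [div_pow, div_le_iff₀ (by positivity)]
  linarith

theorem wt_bound (a b D a0 : ℕ) (hb : b ≤ 400000)
    (h1 : (1 - 18000 / 800000 : ℝ) ^ D ≤ 1 / 8000000)
    (h2 : (1 - 1 / 800000 : ℝ) ^ (a0 * D) ≤ 1 / 6800000) (ha0 : a0 = 18000) :
    ((1 - (b : ℝ) / 800000) ^ D) ^ a ≤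
      (1 / 6800000) ^ b + (1 / 8000000) ^ a + (1 / 8) ^ a * (1 / 7) ^ b * (8 ^ a0 * 7 ^ a0) := by
  have hb' : (b : ℝ) ≤ 400000 := by exact_mod_cast hb
  have h0 : 0 ≤ 1 - (b : ℝ) / 800000 := by linarith
  have h01 : 1 - (b : ℝ) / 800000 ≤ 1 := by
    have : (0 : ℝ) ≤ b := Nat.cast_nonneg b
    linarith
  have p1 : (0 : ℝ) ≤ (1 / 6800000) ^ b := by positivity
  have p2 : (0 : ℝ) ≤ (1 / 8000000) ^ a := by positivity
  have p3 : (0 : ℝ) ≤ (1 / 8) ^ a * (1 / 7) ^ b * (8 ^ a0 * 7 ^ a0) := by positivity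
  by_cases ha : a0 ≤ a
  · have h3 : 1 - (b : ℝ) / 800000 ≤ (1 - 1 / 800000) ^ b := by
      have := one_add_mul_le_pow (a := (-(1 / 800000) : ℝ)) (by norm_num) b
      calc 1 - (b : ℝ) / 800000 = 1 + b * (-(1 / 800000)) := by ring
        _ ≤ _ := this
        _ = _ := by ring_nf
    have h4 : ((1 - (b : ℝ) / 800000) ^ D) ^ a ≤ ((1 - (b : ℝ) / 800000) ^ D) ^ a0 :=
      pow_le_pow_of_le_one (by positivity) (pow_le_one₀ h0 h01) ha
    have h5 : ((1 - (b : ℝ) / 800000) ^ D) ^ a0 ≤ (((1 - 1 / 800000) ^ b) ^ D) ^ a0 :=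
      pow_le_pow_left₀ (by positivity) (pow_le_pow_left₀ h0 h3 D) a0
    have h6 : (((1 - 1 / 800000 : ℝ) ^ b) ^ D) ^ a0 = ((1 - 1 / 800000) ^ (a0 * D)) ^ b := by
      rw [← pow_mul, ← pow_mul, ← pow_mul]
      congr 1
      ring
    have h7 : ((1 - 1 / 800000 : ℝ) ^ (a0 * D)) ^ b ≤ (1 / 6800000) ^ b :=
      pow_le_pow_left₀ (by positivity) h2 b
    linarith
  by_cases hb2 : a0 ≤ b
  · have h3 : (18000 : ℝ) ≤ b := by exact_mod_cast (ha0 ▸ hb2)
    have h4 : (1 - (b : ℝ) / 800000) ^ D ≤ (1 - 18000 / 800000) ^ D :=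
      pow_le_pow_left₀ h0 (by linarith) D
    have h5 : ((1 - (b : ℝ) / 800000) ^ D) ^ a ≤ (1 / 8000000) ^ a :=
      pow_le_pow_left₀ (by positivity) (h4.trans h1) a
    linarith
  · have h3 : ((1 - (b : ℝ) / 800000) ^ D) ^ a ≤ 1 :=
      pow_le_one₀ (by positivity) (pow_le_one₀ h0 h01)
    have h4 : (8 : ℝ) ^ a ≤ 8 ^ a0 := pow_le_pow_right₀ (by norm_num) (by omega)
    have h5 : (7 : ℝ) ^ b ≤ 7 ^ a0 := pow_le_pow_right₀ (by norm_num) (by omega)
    have h6 : (1 : ℝ) ≤ (1 / 8) ^ a * (1 / 7) ^ b * (8 ^ a0 * 7 ^ a0) := by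
      calc (1 : ℝ) = (1 / 8) ^ a * (1 / 7) ^ b * (8 ^ a * 7 ^ b) := by
            rw [one_div, one_div, inv_pow, inv_pow]; field_simp
        _ ≤ _ := mul_le_mul_of_nonneg_left (mul_le_mul h4 h5 (by positivity) (by positivity))
            (by positivity)
    linarith

open Finset

theorem unimod (d : ℕ → ℕ) (k : ℕ) (h1 : ∀ i j, i ≤ j → j ≤ k → d i ≤ d j)
    (h2 : ∀ i j, k ≤ i → i ≤ j → d j ≤ d i) (t L : ℕ) (hL : 0 < L) :
    ∑ j ∈ Ico t (t + L), d j ≤ ∑ j ∈ Ico (t + L) (t + 2 * L), d j ∨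
    ∑ j ∈ Ico (t + 2 * L) (t + 3 * L), d j ≤ ∑ j ∈ Ico (t + L) (t + 2 * L), d j := by
  obtain ⟨j, hj, hmin⟩ := exists_min_image (Ico (t + L) (t + 2 * L)) d
    (nonempty_Ico.mpr (by omega))
  have hj' := mem_Ico.mp hj
  have h3 : L * d j ≤ ∑ j ∈ Ico (t + L) (t + 2 * L), d j := by
    have := card_nsmul_le_sum _ _ _ hmin
    rwa [Nat.card_Ico, show t + 2 * L - (t + L) = L by omega, smul_eq_mul] at this
  rcases le_total j k with h | h
  · left
    have := sum_le_card_nsmul (Ico t (t + L)) d (d j)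
      (fun i hi => h1 i j (by have := mem_Ico.mp hi; omega) h)
    rw [Nat.card_Ico, show t + L - t = L by omega, smul_eq_mul] at this
    exact this.trans h3
  · right
    have := sum_le_card_nsmul (Ico (t + 2 * L) (t + 3 * L)) d (d j)
      (fun i hi => h2 j i h (by have := mem_Ico.mp hi; omega))
    rw [Nat.card_Ico, show t + 3 * L - (t + 2 * L) = L by omega, smul_eq_mul] at this
    exact this.trans h3

theorem window {Ω : Type} [Fintype Ω] (F : Ω → Prop) [DecidablePred F] (sz : Ω → ℕ)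
    (t t' : ℕ) (x y : ℝ) (hx : 0 < x) (hx1 : x ≤ 1) (hy : 1 ≤ y) :
    (∑ ω, if F ω then (1 : ℝ) ^ sz ω else 0) - (∑ ω, if F ω then x ^ sz ω else 0) / x ^ t -
      (∑ ω, if F ω then y ^ sz ω else 0) / y ^ t' ≤
      ((univ.filter (fun ω => F ω ∧ sz ω ∈ Ico t t')).card : ℝ) := by
  rw [card_filter, Nat.cast_sum, sum_div, sum_div, ← sum_sub_distrib, ← sum_sub_distrib]
  apply sum_le_sum
  intro ω _
  have hy0 : 0 < y := by linarith
  by_cases h : F ω
  · simp only [h, if_true, true_and, one_pow, mem_Ico]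
    have p1 : 0 ≤ x ^ sz ω / x ^ t := by positivity
    have p2 : 0 ≤ y ^ sz ω / y ^ t' := by positivity
    split_ifs with h2
    · push_cast; linarith
    · push_cast
      by_cases h3 : t ≤ sz ω
      · have h4 : t' ≤ sz ω := by omega
        have : 1 ≤ y ^ sz ω / y ^ t' :=
          (one_le_div (by positivity)).mpr (pow_le_pow_right₀ hy h4)
        linarith
      · have : 1 ≤ x ^ sz ω / x ^ t :=
          (one_le_div (by positivity)).mpr (pow_le_pow_of_le_one hx.le hx1 (by omega))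
        linarith
  · simp [h]

theorem sum_fun {ι β : Type} [Fintype ι] [DecidableEq ι] [Fintype β] (g : β → ℝ) :
    ∑ f : ι → β, ∏ i, g (f i) = (∑ b, g b) ^ Fintype.card ι := by
  have := prod_univ_sum (fun _ : ι => (univ : Finset β)) (fun _ b => g b)
  rw [Fintype.piFinset_univ] at this
  rw [← this, prod_const, card_univ]

end Pool.Agent.H.MP_e5f8e2_co
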